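import Pool.Agent.Lib.lead.CXNP

namespace Pool.Agent.Results.MP_013ca9_lc.Online
open Pool.Agent.Lib.CX Finset Nat

/-- the triple uniform Good-Turing offline estimator -/
def gt {d : ℕ} (x : List (Fin d)) : ℚ :=
  (multinomial univ fun i => x.count i : ℚ)⁻¹ *
    (multinomial (range (x.length + 1)) fun r => (univ.filter fun i => x.count i = r).card : ℚ)⁻¹ *
    (Fintype.card (Nat.Partition x.length) : ℚ)⁻¹

theorem fib {α β : Type} [Fintype α] [DecidableEq α] [DecidableEq β] (f : α → β) (S : Finset (α → β))
    (h : ∀ g ∈ S, ∀ b, (univ.filter (g · = b)).card = (univ.filter (f · = b)).card) (t : Finset β) (ht : ∀ a, f a ∈ t) :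
    S.card ≤ multinomial t fun b => (univ.filter (f · = b)).card := by
  have h1 : ∀ g : S, ∃ σ : Equiv.Perm α, f ∘ σ = g := fun g =>
    ⟨Equiv.ofFiberEquiv (f := g.1) (g := f) fun b => Fintype.equivOfCardEq (by
      simpa [Fintype.card_subtype] using h g g.2 b), funext fun a => Equiv.ofFiberEquiv_map _ a⟩
  choose σ hσ using h1
  have h2 := Fintype.card_le_of_injective (fun p : S × {τ : Equiv.Perm α // f ∘ τ = f} => p.2.1 * σ p.1)
    fun ⟨g, τ⟩ ⟨g', τ'⟩ e => by
      have := congrArg (fun x : Equiv.Perm α => f ∘ x) e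
      simp only [Equiv.Perm.coe_mul, ← Function.comp_assoc, τ.2, τ'.2, hσ] at this
      obtain rfl := Subtype.ext this
      rw [show τ = τ' from Subtype.ext (mul_right_cancel e)]
  rw [Fintype.card_prod, DomMulAct.stabilizer_card', Fintype.card_perm, Fintype.card_coe,
    prod_subset (s₂ := t) (fun b hb => by obtain ⟨a, -, rfl⟩ := mem_image.1 hb; exact ht a) fun b _ hb => by
      rw [Fintype.card_eq_zero_iff.2 ⟨fun a => hb (mem_image.2 ⟨a.1, mem_univ _, a.2⟩)⟩]; rfl,
    ← Finset.card_univ, card_eq_sum_card_fiberwise (f := f) (t := t) fun a _ => ht a, ← multinomial_spec, mul_comm] at h2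
  simp only [Fintype.card_subtype] at h2
  exact Nat.le_of_mul_le_mul_left h2 (by positivity)

theorem sum_fib {X Y : Type} [DecidableEq Y] (s : Finset X) (u : X → Y) (M : X → ℕ) (F : Y → ℚ) (hF : ∀ y, 0 ≤ F y)
    (h : ∀ x ∈ s, (s.filter (u · = u x)).card ≤ M x) : ∑ x ∈ s, (M x : ℚ)⁻¹ * F (u x) ≤ ∑ y ∈ s.image u, F y := by
  refine (sum_le_sum fun x hx => mul_le_mul_of_nonneg_right (inv_anti₀ (b := ((s.filter (u · = u x)).card : ℚ))
    (by exact_mod_cast card_pos.2 ⟨x, by simpa⟩) (by exact_mod_cast h x hx)) (hF _)).trans ?_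
  rw [sum_comp (fun y => ((s.filter (u · = y)).card : ℚ)⁻¹ * F y) u]
  refine sum_le_sum fun y _ => ?_
  rw [nsmul_eq_mul, ← mul_assoc]
  exact mul_le_of_le_one_left (hF y) (mul_inv_le_one_of_le₀ le_rfl (by positivity))

theorem count_ofFn {s d : ℕ} (f : Fin s → Fin d) (i : Fin d) : (List.ofFn f).count i = (univ.filter (f · = i)).card := by
  rw [← Multiset.coe_count, ← Fin.univ_val_map, Multiset.count_map]
  simp [card, eq_comm]

theorem mass (s d : ℕ) : ∑ f : Fin s → Fin d, gt (List.ofFn f) ≤ 1 := by
  have hP : (0 : ℚ) < Fintype.card (Nat.Partition s) := by exact_mod_cast Fintype.card_pos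
  simp only [gt, count_ofFn, List.length_ofFn, ← sum_mul]
  rw [mul_inv_le_iff₀ hP, one_mul]
  refine (sum_fib univ (fun (f : Fin s → Fin d) i => (univ.filter (f · = i)).card) _
    (fun c => (multinomial (range (s + 1)) fun r => (univ.filter fun i => c i = r).card : ℚ)⁻¹) (fun _ => by positivity)
    fun f _ => fib f _ (fun g hg b => congrFun (mem_filter.1 hg).2 b) _ fun _ => mem_univ _).trans ?_
  set S := univ.image fun (f : Fin s → Fin d) i => (univ.filter (f · = i)).card
  have hS : ∀ c ∈ S, ∑ i, c i = s := fun c hc => by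
    obtain ⟨f, -, rfl⟩ := mem_image.1 hc
    simpa using (card_eq_sum_card_fiberwise (f := f) (s := univ) (t := univ) (by simp)).symm
  have := sum_fib S (fun c => univ.val.map c) _ (fun _ => 1) (by simp) fun c hc => fib c _ (fun g hg b => by
    have := congrArg (Multiset.count b) (mem_filter.1 hg).2
    simpa only [Multiset.count_map, card, filter_val, eq_comm (a := b)] using this) (range (s + 1)) fun a =>
      mem_range.2 (Nat.lt_succ_of_le (hS c hc ▸ single_le_sum (by simp) (mem_univ a)))
  simp only [mul_one, sum_const, nsmul_eq_mul] at this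
  refine this.trans (Nat.cast_le.2 (card_le_card_of_injOn (fun m => if h : m.sum = s then Nat.Partition.ofSums s m h
    else default) (by simp) fun m hm m' hm' e => ?_))
  obtain ⟨c, hc, rfl⟩ := mem_image.1 hm
  obtain ⟨c', hc', rfl⟩ := mem_image.1 hm'
  simp only [dif_pos (show (univ.val.map c).sum = s from hS c hc), dif_pos (show (univ.val.map c').sum = s from hS c' hc'),
    Nat.Partition.ext_iff, Nat.Partition.ofSums_parts, ne_eq] at e
  have a1 : (univ.val.map c).card = (univ.val.map c').card := by simp
  generalize univ.val.map c = m at *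
  generalize univ.val.map c' = m' at *
  rw [← m.filter_add_not (· = 0), ← m'.filter_add_not (· = 0), e, Multiset.filter_eq', Multiset.filter_eq'] at a1 ⊢
  simp only [Multiset.card_add, Multiset.card_replicate, add_left_inj] at a1
  rw [a1]

def lap {d : ℕ} (x : List (Fin (d + 1))) : ℚ := ((∏ i, (x.count i)!) * d ! : ℕ) / (x.length + d)!

theorem lap_pos {d : ℕ} (x : List (Fin (d + 1))) : 0 < lap x := by unfold lap; positivity

theorem sum_count {d : ℕ} (x : List (Fin d)) : ∑ i, x.count i = x.length := by
  simpa using Multiset.sum_count_eq_card (s := univ) (m := Multiset.ofList x) (by simp)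

theorem lap_sum {d : ℕ} (x : List (Fin (d + 1))) : ∑ a, lap (x ++ [a]) = lap x := by
  have : ∀ a, lap (x ++ [a]) = (x.count a + 1 : ℕ) * (lap x / (x.length + d + 1 : ℕ)) := fun a => by
    have : ∏ i, ((x ++ [a]).count i)! = (x.count a + 1) * ∏ i, (x.count i)! := by
      rw [← mul_prod_erase _ _ (mem_univ a), ← mul_prod_erase _ _ (mem_univ a), ← mul_assoc, ← factorial_succ]
      congr 1
      · simp
      · exact prod_congr rfl fun i hi => by simp [(ne_of_mem_erase hi).symm]
    rw [lap, lap, this, List.length_append, List.length_singleton, add_right_comm, factorial_succ]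
    push_cast; field_simp
  simp only [this, ← sum_mul, ← Nat.cast_sum, sum_add_distrib, sum_count]
  simp; field_simp; ring

def W {d : ℕ} (F : List (Fin d) → ℚ) : ℕ → List (Fin d) → ℚ
  | 0, x => F x
  | k + 1, x => ∑ a, W F k (x ++ [a])

theorem W_eq {d : ℕ} (F : List (Fin d) → ℚ) (k : ℕ) (x) : W F k x = ∑ f : Fin k → Fin d, F (x ++ List.ofFn f) := by
  induction k generalizing x with
  | zero => simp [W]
  | succ k ih =>
    simp only [W, ih]
    rw [← Fintype.sum_prod_type', Fintype.sum_equiv (Fin.consEquiv fun _ => Fin d)]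
    simp [List.ofFn_succ]

theorem gt_le {d : ℕ} (x : List (Fin (d + 1))) : gt x ≤ (d + 1)! * lap x := by
  have h1 : ∀ k (x : List (Fin (d + 1))), W lap k x = lap x := fun k => by
    induction k with
    | zero => exact fun _ => rfl
    | succ k ih => simp [W, ih, lap_sum]
  have h2 : ∀ x : List (Fin (d + 1)), lap x = (multinomial univ fun i => x.count i : ℚ)⁻¹ *
      (x.length ! * d ! / (x.length + d)!) := fun x => by
    have := multinomial_pos (univ : Finset (Fin (d + 1))) fun i => x.count i
    rw [lap, ← sum_count x, ← multinomial_spec]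
    push_cast; field_simp
  have hP : (0 : ℚ) < Fintype.card (Nat.Partition x.length) := by exact_mod_cast Fintype.card_pos
  have h3 : ∑ f : Fin x.length → _, lap (List.ofFn f) ≤ ∑ f : Fin x.length → Fin (d + 1), gt (List.ofFn f) *
      (Fintype.card (Nat.Partition x.length) * ((d + 1)! * (x.length ! * d ! / (x.length + d)!))) :=
    sum_le_sum fun f _ => by
      rw [h2, gt, List.length_ofFn, mul_assoc, mul_assoc, inv_mul_cancel_left₀ hP.ne', ← mul_assoc _ ((d + 1)! : ℚ)]
      refine mul_le_mul_of_nonneg_left (le_mul_of_one_le_left (by positivity) ?_) (by positivity)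
      rw [le_inv_mul_iff₀ (by exact_mod_cast multinomial_pos _ _), mul_one, Nat.cast_le]
      refine (Nat.div_le_self _ _).trans (factorial_le ?_)
      rw [← card_eq_sum_card_fiberwise fun i _ => by simpa [Nat.lt_succ_iff] using List.count_le_length (l := List.ofFn f)]
      simp
  have h4 := h1 x.length []
  rw [W_eq] at h4
  simp only [List.nil_append] at h4
  rw [h4, ← sum_mul, show lap [] = 1 by simp [lap, factorial_ne_zero]] at h3
  have h5 := h3.trans (mul_le_of_le_one_left (by positivity) (mass _ _))
  rw [h2, gt, mul_left_comm, mul_assoc]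
  refine mul_le_mul_of_nonneg_left ((mul_le_of_le_one_left (by positivity) (inv_le_one_of_one_le₀
    (by exact_mod_cast multinomial_pos _ _))).trans ?_) (by positivity)
  rwa [inv_le_iff_one_le_mul₀' hP]

theorem pt_fin {α β : Type} [Enc α] [Enc β] (h : α → β) (b : β) (L : List α) : ∃ g, PT g ∧ ∀ a ∈ L, g a = h a := by
  classical
  induction L with
  | nil => exact ⟨fun _ => b, by fun_prop, by simp⟩
  | cons z L ih =>
    obtain ⟨g, h1, h2⟩ := ih
    exact ⟨fun a => if a = z then h z else g a, by fun_prop, by simp +contextual [h2]⟩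

@[fun_prop] theorem pt_fact {α : Type} [Enc α] {n : α → ℕ} (h : PT n) (h' : PB n) : PT fun a => (n a)! :=
  PT.congr (g := fun a => ((List.range (n a)).map (· + 1)).prod) (by fun_prop) fun a => by
    rw [← List.prod_toFinset _ List.nodup_range, List.toFinset_range, prod_range_add_one_eq_factorial]

theorem result (d : ℕ) (hd : 2 ≤ d) : ∃ q : List (Fin d) → ℚ, (∀ x, 0 < q x ∧ q x ≤ 1) ∧ q [] = 1 ∧
    (∀ x, q x = ∑ a, q (x ++ [a])) ∧ (∀ x, Real.log (gt x / q x) ≤ 2 * Real.log (x.length + 2)) ∧
    ∃ g : List ℕ → ℕ × ℕ, PT g ∧ ∀ x, 0 < (g (x.map Fin.val)).2 ∧ q x = (g (x.map Fin.val)).1 / (g (x.map Fin.val)).2 := by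
  obtain ⟨d, rfl⟩ : ∃ e, d = e + 1 := ⟨d - 1, by omega⟩
  obtain ⟨N, hN⟩ : ∃ N, N = (d + 1)! := ⟨_, rfl⟩
  let G : ℕ → List (Fin (d + 1)) → ℚ := fun s z => gt (z.take s) / lap (z.take s) * lap z
  let w : ℕ → ℚ := fun s => 1 / ((s + 1) * (s + 2))
  let c : ℚ := 1 - ∑ s ∈ range (N + 1), w s * W (G s) s []
  let q : List (Fin (d + 1)) → ℚ := fun x => ∑ s ∈ range (N + 1), w s * W (G s) (s - x.length) x + c * lap x
  have g0 : ∀ x : List (Fin (d + 1)), 0 < gt x := fun x => by
    have := fun (t : Finset ℕ) f => multinomial_pos t f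
    have := fun (t : Finset (Fin (d + 1))) f => multinomial_pos t f
    have := Fintype.card_pos (α := Nat.Partition x.length)
    simp [gt, *]
  have g1 : ∀ x : List (Fin (d + 1)), G x.length x = gt x := fun x => by simp [G, (lap_pos x).ne']
  have g2 : ∀ s k x, 0 ≤ w s * W (G s) k x := fun s k x => by
    rw [W_eq]
    exact mul_nonneg (by positivity) (sum_nonneg fun f _ => (mul_pos (div_pos (g0 _) (lap_pos _)) (lap_pos _)).le)
  have c1 : 1 / (N + 2 : ℚ) ≤ c := by
    have : ∀ n, ∑ s ∈ range n, w s = 1 - 1 / (n + 1) := fun n => by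
      induction n with
      | zero => simp
      | succ n ih => rw [sum_range_succ, ih]; simp only [w]; push_cast; field_simp; ring
    have h := sum_le_sum (s := range (N + 1)) fun s _ => mul_le_of_le_one_right (a := w s) (by positivity)
      (show W (G s) s [] ≤ 1 by
        rw [W_eq]
        exact (sum_congr rfl fun f _ => by simpa using g1 (List.ofFn f)).trans_le (mass s (d + 1)))
    rw [this] at h
    simp only [c]; push_cast at h; rw [add_assoc, one_add_one_eq_two] at h; linarith
  have c2 : 0 < c := lt_of_lt_of_le (by positivity) c1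
  have q0 : ∀ x, c * lap x ≤ q x := fun x => le_add_of_nonneg_left (sum_nonneg fun s _ => g2 _ _ _)
  have q1 : ∀ x, 0 < q x := fun x => (mul_pos c2 (lap_pos x)).trans_le (q0 x)
  have q2 : q [] = 1 := by simp [q, c, lap, factorial_ne_zero]
  have q3 : ∀ x, q x = ∑ a, q (x ++ [a]) := fun x => by
    simp only [q, sum_add_distrib, ← mul_sum, lap_sum]
    rw [sum_comm]
    refine congrArg (· + _) (sum_congr rfl fun s _ => ?_)
    simp only [← mul_sum, List.length_append, List.length_singleton]
    congr 1
    by_cases h : s ≤ x.length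
    · simp only [Nat.sub_eq_zero_of_le h, Nat.sub_eq_zero_of_le (h.trans (Nat.le_succ _)), W, G,
        List.take_append_of_le_length h, ← mul_sum, lap_sum]
    · rw [show s - x.length = s - (x.length + 1) + 1 by omega, W]
  refine ⟨q, fun x => ⟨q1 x, ?_⟩, q2, q3, fun x => ?_, ?_⟩
  · induction x using List.reverseRecOn with
    | nil => exact q2.le
    | append_singleton x a ih =>
      exact (single_le_sum (f := fun a => q (x ++ [a])) (fun _ _ => (q1 _).le) (mem_univ a)).trans (q3 x ▸ ih)
  · have : gt x / q x ≤ (x.length + 2) ^ 2 := by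
      rw [div_le_iff₀ (q1 x)]
      by_cases h : x.length ≤ N
      · have : _ ≤ q x := (single_le_sum (fun s _ => g2 s (s - x.length) x) (mem_range.2 (Nat.lt_succ_of_le h))).trans
          (le_add_of_nonneg_right (mul_pos c2 (lap_pos x)).le)
        simp only [Nat.sub_self, W, g1, w, one_div] at this
        rw [inv_mul_le_iff₀ (by positivity)] at this
        exact this.trans (mul_le_mul_of_nonneg_right (by nlinarith) (q1 x).le)
      · have a1 : (N : ℚ) ≤ x.length := by exact_mod_cast (not_le.1 h).le
        have a2 := (mul_le_mul_of_nonneg_right c1 (lap_pos x).le).trans (q0 x)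
        rw [one_div, inv_mul_le_iff₀ (by positivity)] at a2
        refine (gt_le x).trans (hN ▸ (mul_le_mul_of_nonneg_left a2 N.cast_nonneg).trans ?_)
        rw [← mul_assoc]
        exact mul_le_mul_of_nonneg_right (by nlinarith [(N.cast_nonneg : (0 : ℚ) ≤ _)]) (q1 x).le
    rw [show (2 : ℝ) * _ = Real.log ((x.length + 2) ^ 2) by simp]
    exact Real.log_le_log (by exact_mod_cast div_pos (g0 x) (q1 x)) (by exact_mod_cast this)
  · let ρ : List (Fin (d + 1)) → ℚ := fun z => q z / lap z
    obtain ⟨g, h1, h2⟩ := pt_fin (fun l : List ℕ => ((ρ (l.map (Fin.ofNat _))).num.toNat, (ρ (l.map (Fin.ofNat _))).den))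
      (0, 0) (((List.finite_length_le (Fin (d + 1)) N).toFinset.toList).map (List.map Fin.val))
    refine ⟨fun l => ((g (l.take N)).1 * (((List.range (d + 1)).map fun i => (l.count i)!).prod * d !),
      (g (l.take N)).2 * (l.length + d)!), by fun_prop, fun x => ?_⟩
    have a1 : q x = ρ (x.take N) * lap x := by
      by_cases h : x.length ≤ N
      · simp [ρ, List.take_of_length_le h, (lap_pos x).ne']
      · have := (lap_pos (x.take N)).ne'
        simp only [ρ, q, add_div, add_mul, sum_div, sum_mul]
        refine congrArg₂ _ (sum_congr rfl fun s hs => ?_) (by field_simp)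
        have := mem_range.1 hs
        rw [Nat.sub_eq_zero_of_le (by omega), Nat.sub_eq_zero_of_le (by simp; omega)]
        simp only [W, G, List.take_take, min_eq_left (show s ≤ N by omega)]
        field_simp
    have a2 : 0 ≤ (ρ (x.take N)).num := Rat.num_nonneg.2 (div_pos (q1 _) (lap_pos _)).le
    simp only [← List.map_take, h2 _ (List.mem_map_of_mem (a := x.take N) (by simp)), List.map_map, List.length_map,
      show Fin.ofNat (d + 1) ∘ Fin.val = id by ext; simp, List.map_id]
    refine ⟨by positivity, ?_⟩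
    rw [a1, ← List.prod_toFinset _ List.nodup_range, List.toFinset_range, prod_range, lap]
    simp only [List.count_map_of_injective _ _ Fin.val_injective]
    conv_lhs => rw [← Rat.num_div_den (ρ _), ← Int.toNat_of_nonneg a2]
    push_cast; field_simp

end Pool.Agent.Results.MP_013ca9_lc.Online
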